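import Mathlib

/-!
The convex hull of a compact set in a finite dimensional space is compact.
-/

open scoped BigOperators

namespace Pool.Agent.Lib.P325pg

theorem sum_emb {ι κ F : Type*} [Fintype ι] [Fintype κ] [AddCommMonoid F] (em : ι ↪ κ)
    (f : κ → F) (hf : ∀ i, i ∉ Finset.univ.map em → f i = 0) : ∑ i, f i = ∑ j, f (em j) := by
  rw [← Finset.sum_map Finset.univ em f]
  exact (Finset.sum_subset (Finset.subset_univ _) fun i _ hi => hf i hi).symm

theorem hull_compact {E : Type*} [NormedAddCommGroup E] [NormedSpace ℝ E] [FiniteDimensional ℝ E]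
    {s : Set E} (hs : IsCompact s) : IsCompact (convexHull ℝ s) := by
  rcases s.eq_empty_or_nonempty with h0 | ⟨x0, hx0⟩
  · rw [h0, convexHull_empty]
    exact isCompact_empty
  set d := Module.finrank ℝ E with hd
  let Φ : (Fin (d + 1) → ℝ) × (Fin (d + 1) → E) → E := fun p => ∑ i, p.1 i • p.2 i
  have hΦ : Continuous Φ := by
    refine continuous_finsetSum _ fun i _ => ?_
    exact ((continuous_apply i).comp continuous_fst).smul ((continuous_apply i).comp continuous_snd)
  have hT : IsCompact ((stdSimplex ℝ (Fin (d + 1))) ×ˢ (Set.pi Set.univ fun _ : Fin (d + 1) => s)) :=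
    (isCompact_stdSimplex ℝ _).prod (isCompact_univ_pi fun _ => hs)
  have him : Φ '' ((stdSimplex ℝ (Fin (d + 1))) ×ˢ (Set.pi Set.univ fun _ : Fin (d + 1) => s)) =
      convexHull ℝ s := by
    apply Set.Subset.antisymm
    · rintro _ ⟨⟨w, z⟩, ⟨hw, hz⟩, rfl⟩
      apply (convex_convexHull ℝ s).sum_mem (fun i _ => hw.1 i) hw.2
      intro i _
      exact subset_convexHull ℝ s (hz i (Set.mem_univ i))
    · intro x hx
      obtain ⟨ι, _, z, w, hz, haff, hw, hw1, hx1⟩ := eq_pos_convex_span_of_mem_convexHull hx
      have hcard : Fintype.card ι ≤ d + 1 := by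
        refine haff.card_le_finrank_succ.trans ?_
        have := Submodule.finrank_le (vectorSpan ℝ (Set.range z))
        omega
      classical
      let em : ι ↪ Fin (d + 1) := (Fintype.equivFin ι).toEmbedding.trans (Fin.castLEEmb hcard)
      let w' : Fin (d + 1) → ℝ := fun i => if h : ∃ j, em j = i then w h.choose else 0
      let z' : Fin (d + 1) → E := fun i => if h : ∃ j, em j = i then z h.choose else x0
      have hch : ∀ j, ∀ h : ∃ j', em j' = em j, h.choose = j := fun j h =>
        em.injective h.choose_spec
      have hw' : ∀ j, w' (em j) = w j := by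
        intro j
        have h : ∃ j', em j' = em j := ⟨j, rfl⟩
        show (if h : ∃ j', em j' = em j then w h.choose else 0) = w j
        rw [dif_pos h, hch j h]
      have hz' : ∀ j, z' (em j) = z j := by
        intro j
        have h : ∃ j', em j' = em j := ⟨j, rfl⟩
        show (if h : ∃ j', em j' = em j then z h.choose else x0) = z j
        rw [dif_pos h, hch j h]
      have hw0 : ∀ i, i ∉ Finset.univ.map em → w' i = 0 := by
        intro i hi
        have h : ¬ ∃ j', em j' = i := by
          rintro ⟨j, rfl⟩
          exact hi (Finset.mem_map_of_mem _ (Finset.mem_univ j))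
        show (if h : ∃ j', em j' = i then w h.choose else 0) = 0
        rw [dif_neg h]
      refine ⟨(w', z'), ⟨⟨?_, ?_⟩, ?_⟩, ?_⟩
      · intro i
        show 0 ≤ (if h : ∃ j', em j' = i then w h.choose else 0)
        split
        · exact (hw _).le
        · exact le_rfl
      · show ∑ i, w' i = 1
        rw [sum_emb em w' hw0, ← hw1]
        exact Finset.sum_congr rfl fun j _ => hw' j
      · intro i _
        show (if h : ∃ j', em j' = i then z h.choose else x0) ∈ s
        split
        · exact hz ⟨_, rfl⟩
        · exact hx0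
      · show ∑ i, w' i • z' i = x
        rw [sum_emb em (fun i => w' i • z' i) (fun i hi => by rw [hw0 i hi, zero_smul]), ← hx1]
        exact Finset.sum_congr rfl fun j _ => by rw [hw', hz']
  rw [← him]
  exact hT.image hΦ

end Pool.Agent.Lib.P325pg
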