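import Pool.Agent.Lib.P325P.Defs
import Pool.Agent.Lib.P325P.Base
import Pool.Agent.Lib.P325P.Es

/-!
Sums of squares of functions of degree one.
-/

open scoped BigOperators NNReal

namespace Pool.Agent.Lib.P325pg

open Pool.Agent.Lib.P325P (mean es lift es_sum es_zero_of_dep)

/-- The cone generated by the squares of functions `c + ∑ p, h p (x p)`. -/
noncomputable def sos (W Ω : Type) [Fintype W] : Submodule ℝ≥0 ((W → Ω) → ℝ) :=
  Submodule.span ℝ≥0 {f | ∃ (c : ℝ) (h : W → Ω → ℝ), f = fun x => (c + ∑ p, h p (x p)) ^ 2}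

theorem sq_mem {W Ω : Type} [Fintype W] (c : ℝ) (h : W → Ω → ℝ) :
    (fun x : W → Ω => (c + ∑ p, h p (x p)) ^ 2) ∈ sos W Ω :=
  Submodule.subset_span ⟨c, h, rfl⟩

theorem sos_smul {W Ω : Type} [Fintype W] {f : (W → Ω) → ℝ} (hf : f ∈ sos W Ω) {a : ℝ}
    (ha : 0 ≤ a) : (fun x => a * f x) ∈ sos W Ω := by
  have h1 := (sos W Ω).smul_mem (⟨a, ha⟩ : ℝ≥0) hf
  exact h1

theorem sos_add {W Ω : Type} [Fintype W] {f g : (W → Ω) → ℝ} (hf : f ∈ sos W Ω)
    (hg : g ∈ sos W Ω) : (fun x => f x + g x) ∈ sos W Ω := (sos W Ω).add_mem hf hg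

theorem sos_sum {W Ω : Type} [Fintype W] {ι : Type*} (s : Finset ι) (f : ι → (W → Ω) → ℝ)
    (hf : ∀ i ∈ s, f i ∈ sos W Ω) : (fun x => ∑ i ∈ s, f i x) ∈ sos W Ω := by
  have h1 := (sos W Ω).sum_mem hf
  have h2 : (∑ i ∈ s, f i) = fun x => ∑ i ∈ s, f i x := by
    funext x
    rw [Finset.sum_apply]
  rwa [h2] at h1

theorem sos_nonneg {W Ω : Type} [Fintype W] {f : (W → Ω) → ℝ} (hf : f ∈ sos W Ω) (x : W → Ω) :
    0 ≤ f x := by
  refine Submodule.span_induction (p := fun f _ => 0 ≤ f x) ?_ ?_ ?_ ?_ hf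
  · rintro _ ⟨c, h, rfl⟩
    exact sq_nonneg _
  · exact le_rfl
  · intro f g _ _ h1 h2
    exact add_nonneg h1 h2
  · intro a f _ h1
    exact mul_nonneg a.2 h1

theorem sos_E {W Ω : Type} [Fintype W] (E : ((W → Ω) → ℝ) →ₗ[ℝ] ℝ)
    (hE : ∀ (c : ℝ) (h : W → Ω → ℝ), 0 ≤ E (fun x => (c + ∑ p, h p (x p)) ^ 2))
    {f : (W → Ω) → ℝ} (hf : f ∈ sos W Ω) : 0 ≤ E f := by
  refine Submodule.span_induction (p := fun f _ => 0 ≤ E f) ?_ ?_ ?_ ?_ hf
  · rintro _ ⟨c, h, rfl⟩
    exact hE c h
  · exact (map_zero E).ge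
  · intro f g _ _ h1 h2
    rw [map_add]
    exact add_nonneg h1 h2
  · intro a f _ h1
    have h2 : a • f = (a : ℝ) • f := rfl
    rw [h2, map_smul]
    exact mul_nonneg a.2 h1

/-- A sum of squares after a substitution of coordinates by coordinates or constants. -/
theorem sos_comp {W W' Ω : Type} [Fintype W] [Fintype W'] [DecidableEq W'] (src : W → Option W')
    (d : W → Ω) {f : (W → Ω) → ℝ} (hf : f ∈ sos W Ω) :
    (fun y : W' → Ω => f (fun p => (src p).elim (d p) y)) ∈ sos W' Ω := by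
  refine Submodule.span_induction (p := fun f _ =>
    (fun y : W' → Ω => f (fun p => (src p).elim (d p) y)) ∈ sos W' Ω) ?_ ?_ ?_ ?_ hf
  · rintro _ ⟨c, h, rfl⟩
    have h1 : (fun y : W' → Ω => (c + ∑ p, h p ((src p).elim (d p) y)) ^ 2) =
        fun y : W' → Ω => ((c + ∑ p, if src p = none then h p (d p) else 0) +
          ∑ p', (fun p' a => ∑ p, if src p = some p' then h p a else 0) p' (y p')) ^ 2 := by
      funext y
      congr 1
      rw [add_assoc]
      congr 1
      rw [Finset.sum_comm, ← Finset.sum_add_distrib]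
      refine Finset.sum_congr rfl fun p _ => ?_
      rcases hp : src p with _ | p'
      · simp
      · simp
    show (fun y : W' → Ω => (c + ∑ p, h p ((src p).elim (d p) y)) ^ 2) ∈ sos W' Ω
    rw [h1]
    exact sq_mem (W := W') (c + ∑ p, if src p = none then h p (d p) else 0)
      (fun p' a => ∑ p, if src p = some p' then h p a else 0)
  · exact (sos W' Ω).zero_mem
  · intro f g _ _ h1 h2
    exact (sos W' Ω).add_mem h1 h2
  · intro a f _ h1
    exact (sos W' Ω).smul_mem a h1

theorem sos_mean {W Ω X : Type} [Fintype W] [Fintype X] (Q : X → (W → Ω) → ℝ)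
    (hQ : ∀ z, Q z ∈ sos W Ω) : (fun y => mean (fun z => Q z y)) ∈ sos W Ω := by
  have h1 : (fun y => mean (fun z => Q z y)) =
      fun y => (Fintype.card X : ℝ)⁻¹ * ∑ z, Q z y := by
    funext y
    unfold mean
    rw [div_eq_inv_mul]
  rw [h1]
  exact sos_smul (sos_sum _ _ fun z _ => hQ z) (inv_nonneg.2 (Nat.cast_nonneg _))

theorem sos_lift {V K Ω : Type} [Fintype V] [DecidableEq V] [Fintype K] [DecidableEq K] [Fintype Ω]
    (z : V → K) {Q : (V × K → Ω) → ℝ} (hQ : Q ∈ sos (V × K) Ω) : lift z Q ∈ sos V Ω := by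
  have h1 : lift z Q = fun y => mean (fun x : V × K → Ω =>
      Q (fun p => (if p.2 = z p.1 then some p.1 else none : Option V).elim (x p) y)) := by
    funext y
    unfold lift
    congr 1
    funext x
    congr 1
    funext p
    split <;> rfl
  rw [h1]
  exact sos_mean (fun (x : V × K → Ω) y => Q (fun p =>
    (if p.2 = z p.1 then some p.1 else none : Option V).elim (x p) y))
    (fun x => sos_comp (fun p => if p.2 = z p.1 then some p.1 else none) x hQ)

theorem sos_es {V Ω : Type} [Fintype V] [DecidableEq V] [Fintype Ω] [Nonempty Ω]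
    {f : (V → Ω) → ℝ} (hf : f ∈ sos V Ω) (T : Finset V) (hT : 2 < T.card) (y : V → Ω) :
    es T f y = 0 := by
  have hadd : ∀ f g : (V → Ω) → ℝ, es T (f + g) y = es T f y + es T g y := by
    intro f g
    have h1 : (f + g) = fun x => ∑ j ∈ (Finset.univ : Finset Bool),
        (1 : ℝ) * (bif j then f else g) x := by
      funext x
      simp
    rw [h1, es_sum]
    simp
  have hsmul : ∀ (a : ℝ) (f : (V → Ω) → ℝ), es T (a • f) y = a * es T f y := by
    intro a f
    have h1 : (a • f) = fun x => ∑ j ∈ ({()} : Finset Unit), (fun _ => a) j * (fun _ => f) j x := by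
      funext x
      simp
    rw [h1, es_sum]
    simp
  refine Submodule.span_induction (p := fun f _ => es T f y = 0) ?_ ?_ ?_ ?_ hf
  · rintro _ ⟨c, h, rfl⟩
    let a : Option V → (V → Ω) → ℝ := fun o x => o.elim c (fun p => h p (x p))
    have h1 : (fun x : V → Ω => (c + ∑ p, h p (x p)) ^ 2) =
        fun x => ∑ o ∈ (Finset.univ : Finset (Option V × Option V)),
          (1 : ℝ) * (fun x => a o.1 x * a o.2 x) x := by
      funext x
      have h2 : c + ∑ p, h p (x p) = ∑ o, a o x := by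
        rw [Fintype.sum_option]
        rfl
      rw [h2, sq, Finset.sum_mul_sum, ← Finset.univ_product_univ, Finset.sum_product]
      simp
    rw [h1, es_sum]
    refine Finset.sum_eq_zero fun o _ => ?_
    rw [es_zero_of_dep (J := (o.1.toFinset ∪ o.2.toFinset)), mul_zero]
    · intro u v huv
      have h3 : ∀ o' : Option V, (∀ p ∈ o', u p = v p) → a o' u = a o' v := by
        rintro (_ | p) hp
        · rfl
        · show h p (u p) = h p (v p)
          rw [hp p rfl]
      show a o.1 u * a o.2 u = a o.1 v * a o.2 v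
      rw [h3 o.1 (fun p hp => huv p (by simp [Option.mem_def.1 hp])),
        h3 o.2 (fun p hp => huv p (by simp [Option.mem_def.1 hp]))]
    · intro hsub
      have h3 := Finset.card_le_card hsub
      have h4 := Finset.card_union_le o.1.toFinset o.2.toFinset
      have h5 : ∀ o' : Option V, o'.toFinset.card ≤ 1 := by
        rintro (_ | p) <;> simp
      have h6 := h5 o.1
      have h7 := h5 o.2
      omega
  · have h1 := hsmul 0 0
    rw [zero_smul, zero_mul] at h1
    exact h1
  · intro f g _ _ h1 h2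
    rw [hadd, h1, h2, add_zero]
  · intro a f _ h1
    have h2 : a • f = (a : ℝ) • f := rfl
    rw [h2, hsmul, h1, mul_zero]

end Pool.Agent.Lib.P325pg
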