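import Pool.Agent.Lib.P325pg.MainS
import Pool.Agent.Lib.P325sdp.Base

/-!
Convex programs of polynomial size on top of the standard semidefinite relaxation.
-/

open scoped BigOperators

namespace Pool.Agent.Lib.P325pg

open Pool.Agent.Lib.P325x (Game)
open Pool.Agent.Lib.P325av (Certifies relabel)

theorem base : BaseS := fun ε δ hε hδ => by
  obtain ⟨k, hk, h⟩ := Pool.Agent.Lib.P325sdp.baseS ε δ hε hδ
  exact ⟨k, hk, fun r => h r⟩

theorem finS (ε δ : ℝ) (hε : 0 < ε) (hδ : 0 < δ) : ∃ k : ℕ, 0 < k ∧ ∀ C : ℕ,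
    ∃ N0 : ℕ, ∀ N ≥ N0, ∃ (ι : Type) (_ : Fintype ι) (src dst : ι → Fin N) (b : ι → ZMod k),
      Nonempty ι ∧
      (Game.mk src dst (fun e => Equiv.addRight (b e))).value ≤ δ ∧
      ∀ (Y : Type) [AddCommGroup Y] [Module ℝ Y] (R : ℕ)
        (A : Fin R → Y →ₗ[ℝ] (Fin C → ℝ)) (K : Fin R → Set (Fin C → ℝ))
        (pt : (Fin N ⊕ Fin N → ZMod k) → Y),
        (R : ℝ) ≤ (N : ℝ) ^ C → (∀ j, Convex ℝ (K j)) → (∀ z j, A j (pt z) ∈ K j) →
        (Nat.card {g : Equiv.Perm (Fin N) × Equiv.Perm (Fin N) //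
          Certifies ({y | ∀ j, A j y ∈ K j} ∩ StandardSDP pt) pt (1 - ε)
            (relabel (Game.mk src dst (fun e => Equiv.addRight (b e))) g)} : ℝ) ≤
          (N.factorial : ℝ) ^ 2 / (N : ℝ) ^ C :=
  mainS base ε δ hε hδ

end Pool.Agent.Lib.P325pg
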