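import Mathlib

/-!
Parameters: a fixed number of vertices and a growing number of copies.
-/

open scoped BigOperators

namespace Pool.Agent.Lib.P325pg

theorem paraS (n q : ℕ) (hn : 1 ≤ n) (hq : 1 ≤ q) (η : ℝ) (hη : 0 < η) (A : ℕ) :
    ∃ N0 : ℕ, ∀ N ≥ N0, ∃ (K : ℕ) (τ L b : ℝ), 1 ≤ K ∧ n * K ≤ N ∧ 0 < τ ∧
      (∀ j : ℕ, 16 * (A + 2) < 2 * j → 1 < τ * Real.sqrt (K : ℝ) ^ j) ∧
      ((16 * (A + 2) : ℕ) : ℝ) * Real.log q + Real.log (1 / τ) ≤ L ∧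
      (2 * (n : ℝ)) * (Real.exp 1 * (q : ℝ) * Real.sqrt (L + 1) /
        Real.sqrt (Real.sqrt (K : ℝ))) ≤ 1 / 2 ∧ 0 ≤ b ∧
      (∀ a : ℕ, 2 * a ≤ 16 * (A + 2) → (q : ℝ) ^ a *
        (4 ^ a * ((2 * (n : ℝ)) * (Real.exp 1 * (q : ℝ) * Real.sqrt (L + 1) /
          Real.sqrt (Real.sqrt (K : ℝ)))) ^ (16 * (A + 2) - a)) ≤ b) ∧
      (N : ℝ) ^ A * (2 * ((2 * (q : ℝ) * ((2 * (n : ℝ)) + 1)) ^ (16 * (A + 2)) * τ) + b) ≤ η := by
  have hn' : (1 : ℝ) ≤ n := by exact_mod_cast hn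
  have hq' : (1 : ℝ) ≤ q := by exact_mod_cast hq
  obtain ⟨m, hm⟩ : ∃ m : ℕ, m = 4 * (A + 2) := ⟨_, rfl⟩
  have hr : 16 * (A + 2) = 4 * m := by omega
  rw [hr]
  have hlogq : 0 ≤ Real.log q := Real.log_nonneg hq'
  have he : 0 < Real.exp 1 := Real.exp_pos 1
  set c0 : ℝ := 2 * (n : ℝ) * (Real.exp 1 * q) with hc0
  have hc00 : 0 < c0 := by positivity
  set a0 : ℝ := ((4 * m : ℕ) : ℝ) * Real.log q with ha0
  have ha00 : 0 ≤ a0 := by positivity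
  set B0 : ℝ := 8 * m + a0 + 1 + 2 * c0 with hB0
  have hB01 : 1 ≤ B0 := by
    have : (0 : ℝ) ≤ m := Nat.cast_nonneg _
    linarith
  set c1 : ℝ := (2 * (n : ℝ)) ^ A * (2 * ((2 * (q : ℝ) * ((2 * (n : ℝ)) + 1)) ^ (4 * m) * 2) +
    (4 * (q : ℝ)) ^ (4 * m) * c0 ^ (2 * m)) with hc1
  have hc10 : 0 < c1 := by positivity
  refine ⟨n * (⌈B0 ^ 8⌉₊ + ⌈c1 / η⌉₊ + 1), fun N hN => ?_⟩
  set K : ℕ := N / n with hK
  have hKge : ⌈B0 ^ 8⌉₊ + ⌈c1 / η⌉₊ + 1 ≤ K := by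
    rw [hK, Nat.le_div_iff_mul_le (by omega)]
    calc (⌈B0 ^ 8⌉₊ + ⌈c1 / η⌉₊ + 1) * n = n * (⌈B0 ^ 8⌉₊ + ⌈c1 / η⌉₊ + 1) := by ring
      _ ≤ N := hN
  have hK1 : 1 ≤ K := by omega
  have hK1' : (1 : ℝ) ≤ K := by exact_mod_cast hK1
  have hK0' : (0 : ℝ) < K := by linarith
  have hKB : B0 ^ 8 ≤ K := by
    have h1 : (⌈B0 ^ 8⌉₊ : ℝ) ≤ K := by exact_mod_cast (by omega : ⌈B0 ^ 8⌉₊ ≤ K)
    exact (Nat.le_ceil _).trans h1
  have hKc : c1 / η ≤ K := by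
    have h1 : (⌈c1 / η⌉₊ : ℝ) ≤ K := by exact_mod_cast (by omega : ⌈c1 / η⌉₊ ≤ K)
    exact (Nat.le_ceil _).trans h1
  have hnK : n * K ≤ N := by
    rw [hK]
    exact Nat.mul_div_le N n
  have hNK : (N : ℝ) ≤ 2 * n * K := by
    have h1 : N < n * (K + 1) := by
      rw [hK]
      exact Nat.lt_mul_div_succ N (by omega)
    have h2 : (N : ℝ) ≤ n * (K + 1) := by exact_mod_cast h1.le
    have h3 : (n : ℝ) * (K + 1) ≤ n * (2 * K) :=
      mul_le_mul_of_nonneg_left (by linarith) (by linarith)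
    have h4 : (n : ℝ) * (2 * K) = 2 * n * K := by ring
    linarith
  -- the eighth root
  set κ : ℝ := Real.sqrt (Real.sqrt (Real.sqrt K)) with hκ
  have hs0 : 0 ≤ Real.sqrt (K : ℝ) := Real.sqrt_nonneg _
  have hs1 : 0 ≤ Real.sqrt (Real.sqrt (K : ℝ)) := Real.sqrt_nonneg _
  have hκ2 : κ ^ 2 = Real.sqrt (Real.sqrt K) := Real.sq_sqrt hs1
  have hκ8 : κ ^ 8 = K := by
    have : κ ^ 8 = ((κ ^ 2) ^ 2) ^ 2 := by ring
    rw [this, hκ2, Real.sq_sqrt hs0, Real.sq_sqrt hK0'.le]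
  have hκB : B0 ≤ κ := by
    rw [hκ]
    apply Real.le_sqrt_of_sq_le
    apply Real.le_sqrt_of_sq_le
    apply Real.le_sqrt_of_sq_le
    have h9 : ((B0 ^ 2) ^ 2) ^ 2 = B0 ^ 8 := by ring
    rw [h9]
    exact hKB
  have hκ1 : 1 ≤ κ := hB01.trans hκB
  have hκ0 : 0 < κ := by linarith
  -- the parameters
  set τ : ℝ := 2 / (K : ℝ) ^ m with hτ
  have hτ0 : 0 < τ := by positivity
  set L : ℝ := a0 + Real.log (1 / τ) with hL
  have hlogτ : Real.log (1 / τ) ≤ 8 * m * κ := by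
    have h1 : 1 / τ ≤ (K : ℝ) ^ m := by
      rw [hτ, one_div_div]
      have : (0 : ℝ) ≤ (K : ℝ) ^ m := by positivity
      linarith
    have h2 : Real.log (1 / τ) ≤ Real.log ((K : ℝ) ^ m) := Real.log_le_log (by positivity) h1
    have h5 : Real.log ((K : ℝ) ^ m) = (m : ℝ) * (8 * Real.log κ) := by
      rw [Real.log_pow, ← hκ8, Real.log_pow]
      push_cast
      ring
    have h3 : Real.log κ ≤ κ := by
      have := Real.log_le_sub_one_of_pos hκ0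
      linarith
    have h4 : (m : ℝ) * (8 * Real.log κ) ≤ (m : ℝ) * (8 * κ) := by
      apply mul_le_mul_of_nonneg_left _ (Nat.cast_nonneg _)
      linarith
    linarith
  have hL1 : L + 1 ≤ κ ^ 2 := by
    have h1 : (8 * m + a0 + 1) * κ ≤ κ * κ := by
      apply mul_le_mul_of_nonneg_right _ hκ0.le
      linarith
    have h2 : a0 + 1 ≤ (a0 + 1) * κ := le_mul_of_one_le_right (by linarith) hκ1
    have h3 : (8 * m + a0 + 1) * κ = 8 * m * κ + (a0 + 1) * κ := by ring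
    have h4 : κ * κ = κ ^ 2 := by ring
    rw [h3, h4] at h1
    rw [hL]
    linarith
  have hsqL : Real.sqrt (L + 1) ≤ κ := by
    rw [← Real.sqrt_sq hκ0.le]
    exact Real.sqrt_le_sqrt hL1
  have hX : (2 * (n : ℝ)) * (Real.exp 1 * (q : ℝ) * Real.sqrt (L + 1) /
      Real.sqrt (Real.sqrt (K : ℝ))) ≤ c0 / κ := by
    rw [← hκ2]
    have h1 : Real.exp 1 * (q : ℝ) * Real.sqrt (L + 1) / κ ^ 2 ≤ Real.exp 1 * q * κ / κ ^ 2 := by
      apply div_le_div_of_nonneg_right _ (by positivity)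
      exact mul_le_mul_of_nonneg_left hsqL (by positivity)
    have h2 : c0 / κ = (2 * (n : ℝ)) * (Real.exp 1 * q * κ / κ ^ 2) := by
      rw [hc0]
      field_simp
    rw [h2]
    exact mul_le_mul_of_nonneg_left h1 (by positivity)
  have hX0 : 0 ≤ (2 * (n : ℝ)) * (Real.exp 1 * (q : ℝ) * Real.sqrt (L + 1) /
      Real.sqrt (Real.sqrt (K : ℝ))) := by positivity
  have hcκ : c0 / κ ≤ 1 / 2 := by
    rw [div_le_iff₀ hκ0]
    have : (0 : ℝ) ≤ m := Nat.cast_nonneg _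
    linarith
  set X : ℝ := (2 * (n : ℝ)) * (Real.exp 1 * (q : ℝ) * Real.sqrt (L + 1) /
      Real.sqrt (Real.sqrt (K : ℝ))) with hXdef
  set b : ℝ := (4 * (q : ℝ)) ^ (4 * m) * (c0 / κ) ^ (2 * m) with hb
  refine ⟨K, τ, L, b, hK1, hnK, hτ0, ?_, le_rfl, hX.trans hcκ, by positivity, ?_, ?_⟩
  · intro j hj
    have hsK : 1 ≤ Real.sqrt (K : ℝ) := by
      rw [Real.one_le_sqrt]
      exact hK1'
    have h1 : (K : ℝ) ^ m ≤ Real.sqrt (K : ℝ) ^ j := by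
      calc (K : ℝ) ^ m = Real.sqrt (K : ℝ) ^ (2 * m) := by
            rw [pow_mul, Real.sq_sqrt hK0'.le]
        _ ≤ _ := pow_le_pow_right₀ hsK (by omega)
    have h2 : (0 : ℝ) < (K : ℝ) ^ m := by positivity
    calc (1 : ℝ) < 2 := by norm_num
      _ = τ * (K : ℝ) ^ m := by rw [hτ]; field_simp
      _ ≤ _ := mul_le_mul_of_nonneg_left h1 hτ0.le
  · intro a ha
    have h1 : X ^ (4 * m - a) ≤ X ^ (2 * m) :=
      pow_le_pow_of_le_one hX0 (by linarith) (by omega)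
    have h2 : X ^ (2 * m) ≤ (c0 / κ) ^ (2 * m) := pow_le_pow_left₀ hX0 hX _
    have h3 : (q : ℝ) ^ a * (4 ^ a * X ^ (4 * m - a)) = (4 * q) ^ a * X ^ (4 * m - a) := by
      rw [mul_pow]
      ring
    rw [h3, hb]
    apply mul_le_mul _ (h1.trans h2) (by positivity) (by positivity)
    apply pow_le_pow_right₀ _ (by omega)
    linarith
  · have hKA : (K : ℝ) ^ (A + 2) = κ ^ (2 * m) := by
      rw [← hκ8, ← pow_mul]
      congr 1
      omega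
    have hN0 : (0 : ℝ) ≤ N := Nat.cast_nonneg _
    have h1 : (N : ℝ) ^ A ≤ (2 * n) ^ A * (K : ℝ) ^ A := by
      rw [← mul_pow]
      exact pow_le_pow_left₀ hN0 hNK A
    have h2 : τ ≤ 2 / (K : ℝ) ^ (A + 2) := by
      rw [hτ]
      apply div_le_div_of_nonneg_left (by norm_num) (by positivity)
      exact pow_le_pow_right₀ hK1' (by omega)
    have h3 : b = (4 * (q : ℝ)) ^ (4 * m) * c0 ^ (2 * m) / (K : ℝ) ^ (A + 2) := by
      rw [hb, div_pow, hKA, mul_div_assoc]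
    have h4 : 2 * ((2 * (q : ℝ) * ((2 * (n : ℝ)) + 1)) ^ (4 * m) * τ) + b ≤
        (2 * ((2 * (q : ℝ) * ((2 * (n : ℝ)) + 1)) ^ (4 * m) * 2) +
          (4 * (q : ℝ)) ^ (4 * m) * c0 ^ (2 * m)) / (K : ℝ) ^ (A + 2) := by
      rw [h3, add_div]
      have h5 : 2 * ((2 * (q : ℝ) * ((2 * (n : ℝ)) + 1)) ^ (4 * m) * 2) / (K : ℝ) ^ (A + 2) =
          2 * ((2 * (q : ℝ) * ((2 * (n : ℝ)) + 1)) ^ (4 * m) * (2 / (K : ℝ) ^ (A + 2))) := by
        ring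
      rw [h5]
      have h6 := mul_le_mul_of_nonneg_left h2
        (by positivity : 0 ≤ (2 * (q : ℝ) * ((2 * (n : ℝ)) + 1)) ^ (4 * m))
      linarith
    have hpos4 : 0 ≤ 2 * ((2 * (q : ℝ) * ((2 * (n : ℝ)) + 1)) ^ (4 * m) * τ) + b := by positivity
    calc (N : ℝ) ^ A * (2 * ((2 * (q : ℝ) * ((2 * (n : ℝ)) + 1)) ^ (4 * m) * τ) + b)
        ≤ ((2 * n) ^ A * (K : ℝ) ^ A) *
          ((2 * ((2 * (q : ℝ) * ((2 * (n : ℝ)) + 1)) ^ (4 * m) * 2) +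
          (4 * (q : ℝ)) ^ (4 * m) * c0 ^ (2 * m)) / (K : ℝ) ^ (A + 2)) :=
          mul_le_mul h1 h4 hpos4 (by positivity)
      _ = c1 / (K : ℝ) ^ 2 := by
          rw [hc1, pow_add (K : ℝ) A 2]
          field_simp
      _ ≤ c1 / K := by
          apply div_le_div_of_nonneg_left hc10.le hK0'
          exact le_self_pow₀ hK1' two_ne_zero
      _ ≤ η := by
          rw [div_le_iff₀ hK0']
          rw [div_le_iff₀ hη] at hKc
          linarith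

end Pool.Agent.Lib.P325pg
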