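import Pool.Agent.Lib.P325pg.TermS
import Pool.Agent.Lib.P325pg.Sos
import Pool.Agent.Lib.P325av.RankAv

/-!
Lower bound for a lifted function which is, for the good choices of copies, a short sum of products
of nonnegative functions plus a sum of squares of functions of degree one.
-/

open scoped BigOperators

namespace Pool.Agent.Lib.P325pg

open Pool.Agent.Lib.P325h (IsLocalExpectation)
open Pool.Agent.Lib.P325P Pool.Agent.Lib.P325P.RankAux

variable {V K Ω : Type} [Fintype V] [DecidableEq V] [Fintype K] [DecidableEq K] [Fintype Ω]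
  [Nonempty Ω] [Nonempty K]

theorem lift_add (z : V → K) (f g : (V × K → Ω) → ℝ) (y : V → Ω) :
    lift z (fun x => f x + g x) y = lift z f y + lift z g y := by
  unfold lift
  rw [← mean_add]

/-- The average of the sums of squares over the good choices. -/
noncomputable def sqAvg (G : (V → K) → Prop) [DecidablePred G] (Q : (V → K) → (V × K → Ω) → ℝ)
    (y : V → Ω) : ℝ :=
  mean (fun z : V → K => (if G z then (1 : ℝ) else 0) * lift z (Q z) y)

theorem sqAvg_mem (G : (V → K) → Prop) [DecidablePred G] (Q : (V → K) → (V × K → Ω) → ℝ)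
    (hQ : ∀ z, Q z ∈ sos (V × K) Ω) : sqAvg G Q ∈ sos V Ω := by
  refine sos_mean (fun z y => (if G z then (1 : ℝ) else 0) * lift z (Q z) y) fun z => ?_
  refine sos_smul (sos_lift z (hQ z)) ?_
  split <;> norm_num

theorem avg_sum_goodS {I : Type} [Fintype I] (u : I → (V → K) → ℝ) (v : I → (V × K → Ω) → ℝ)
    (F : (V → Ω) → ℝ) (G : (V → K) → Prop) [DecidablePred G]
    (h0 : ∀ j z, ¬ G z → u j z = 0) (Q : (V → K) → (V × K → Ω) → ℝ)
    (hdec : ∀ z : V → K, G z → ∀ x : V × K → Ω,
      F (fun i => x (i, z i)) = ∑ j, u j z * v j x + Q z x)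
    (y : V → Ω) : mean (fun z : V → K => if G z then (1 : ℝ) else 0) * F y =
      ∑ j, avg (u j) (v j) y + sqAvg G Q y := by
  unfold avg sqAvg
  rw [← mean_sum, ← mean_add]
  have h : ∀ z : V → K, ∑ j, u j z * lift z (v j) y +
      (if G z then (1 : ℝ) else 0) * lift z (Q z) y = F y * (if G z then (1 : ℝ) else 0) := by
    intro z
    by_cases hz : G z
    · rw [if_pos hz, mul_one, one_mul, ← lift_sum z (fun j => u j z) v y, ← lift_sel z F y,
        ← lift_add]
      congr 1
      funext x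
      exact (hdec z hz x).symm
    · rw [if_neg hz, mul_zero, zero_mul, add_zero]
      exact Finset.sum_eq_zero fun j _ => by rw [h0 j z hz, zero_mul]
  rw [mean_congr h, mean_mul_left, mul_comm]

theorem rankS {r : ℕ} (hr2 : 2 ≤ r) {E : ((V → Ω) → ℝ) →ₗ[ℝ] ℝ} (hE : IsLocalExpectation r E)
    (hSq : ∀ (c : ℝ) (h : V → Ω → ℝ), 0 ≤ E (fun y => (c + ∑ p, h p (y p)) ^ 2))
    (F : (V → Ω) → ℝ) (hF1 : ∀ y, F y ≤ 1)
    (hFr : ∀ T : Finset V, r < T.card → ∀ y, es T F y = 0)
    {I : Type} [Fintype I] (u : I → (V → K) → ℝ) (v : I → (V × K → Ω) → ℝ)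
    (hu : ∀ j z, 0 ≤ u j z) (hv : ∀ j x, 0 ≤ v j x)
    (G : (V → K) → Prop) [DecidablePred G]
    (h0 : ∀ j z, ¬ G z → u j z = 0) (Q : (V → K) → (V × K → Ω) → ℝ)
    (hQ : ∀ z, Q z ∈ sos (V × K) Ω)
    (hdec : ∀ z : V → K, G z → ∀ x : V × K → Ω,
      F (fun i => x (i, z i)) = ∑ j, u j z * v j x + Q z x)
    (τ L : ℝ) (hτ : 0 < τ)
    (hT : ∀ j : ℕ, r < 2 * j → 1 < τ * Real.sqrt (Fintype.card K) ^ j)
    (hL : (r : ℝ) * Real.log (Fintype.card Ω) + Real.log (1 / τ) ≤ L)
    (hX1 : (Fintype.card V : ℝ) * (Real.exp 1 * (Fintype.card Ω : ℝ) * Real.sqrt (L + 1) /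
      Real.sqrt (Real.sqrt (Fintype.card K))) ≤ 1 / 2) (b : ℝ) (hb0 : 0 ≤ b)
    (hb : ∀ a : ℕ, 2 * a ≤ r → (Fintype.card Ω : ℝ) ^ a *
      (4 ^ a * ((Fintype.card V : ℝ) * (Real.exp 1 * (Fintype.card Ω : ℝ) * Real.sqrt (L + 1) /
        Real.sqrt (Real.sqrt (Fintype.card K)))) ^ (r - a)) ≤ b) :
    -((Fintype.card I : ℝ) * (2 * ((2 * (Fintype.card Ω : ℝ) *
      ((Fintype.card V : ℝ) + 1)) ^ r * τ) + b)) ≤
      mean (fun z : V → K => if G z then (1 : ℝ) else 0) * E F := by
  classical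
  have hB : 0 ≤ 2 * ((2 * (Fintype.card Ω : ℝ) * ((Fintype.card V : ℝ) + 1)) ^ r * τ) + b := by
    positivity
  set B : ℝ := 2 * ((2 * (Fintype.card Ω : ℝ) * ((Fintype.card V : ℝ) + 1)) ^ r * τ) + b
    with hBdef
  have hprod : ∀ j z x, u j z * v j x ≤ 1 := by
    intro j z x
    by_cases hz : G z
    · refine le_trans ?_ (hF1 (fun i => x (i, z i)))
      rw [hdec z hz x]
      have h1 := Finset.single_le_sum (f := fun j => u j z * v j x)
        (fun i _ => mul_nonneg (hu i z) (hv i x)) (Finset.mem_univ j)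
      have h2 := sos_nonneg (hQ z) x
      linarith
    · rw [h0 j z hz, zero_mul]
      exact zero_le_one
  have hj : ∀ j, -B ≤ Lam r E (avg (u j) (v j)) := by
    intro j
    obtain ⟨x0, hx0⟩ := Finite.exists_max (v j)
    by_cases hc : v j x0 = 0
    · have hv0 : ∀ x, v j x = 0 := fun x => le_antisymm (hc ▸ hx0 x) (hv j x)
      have h0 : avg (u j) (v j) = fun y => ∑ i ∈ (∅ : Finset I), (1 : ℝ) * (avg (u i) (v i)) y := by
        funext y
        rw [Finset.sum_empty]
        unfold avg lift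
        have : ∀ z : V → K, u j z * mean (fun x : V × K → Ω =>
            v j (fun p => if p.2 = z p.1 then y p.1 else x p)) = 0 := by
          intro z
          rw [mean_congr (g := fun _ => (0 : ℝ)) (fun x => hv0 _), mean_const, mul_zero]
        rw [mean_congr (g := fun _ => (0 : ℝ)) this, mean_const]
      rw [h0, lam_sum, Finset.sum_empty]
      linarith
    · have hcpos : 0 < v j x0 := lt_of_le_of_ne (hv j x0) (Ne.symm hc)
      rw [← avg_scale (u j) (v j) hc]
      refine termS hE _ (fun z => mul_nonneg hcpos.le (hu j z)) (fun z => ?_) _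
        (fun x => mul_nonneg (inv_nonneg.2 hcpos.le) (hv j x)) (fun x => ?_) τ L hτ hT hL hX1 b
        hb0 hb
      · rw [mul_comm]
        exact hprod j z x0
      · rw [inv_mul_le_iff₀ hcpos, mul_one]
        exact hx0 x
  set ρ : ℝ := mean (fun z : V → K => if G z then (1 : ℝ) else 0) with hρ
  set P : (V → Ω) → ℝ := sqAvg G Q with hP
  have hPm : P ∈ sos V Ω := sqAvg_mem G Q hQ
  have hF : ρ • F - P = fun y => ∑ j ∈ (Finset.univ : Finset I),
      (1 : ℝ) * (avg (u j) (v j)) y := by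
    funext y
    rw [Pi.sub_apply, Pi.smul_apply, smul_eq_mul, hρ, avg_sum_goodS u v F G h0 Q hdec y, hP,
      add_sub_cancel_right]
    exact Finset.sum_congr rfl fun j _ => (one_mul _).symm
  have hFr' : ∀ T : Finset V, r < T.card → ∀ y, es T (ρ • F - P) y = 0 := by
    intro T hT' y
    have e0 : ρ • F - P = fun x => ∑ j ∈ (Finset.univ : Finset Bool),
        (bif j then ρ else -1) * (bif j then F else P) x := by
      funext x
      simp [sub_eq_add_neg]
    rw [e0, es_sum]
    simp only [Fintype.sum_bool, cond_true, cond_false]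
    rw [hFr T hT' y, sos_es hPm T (by omega) y]
    ring
  have hE2 : ρ * E F = E (ρ • F - P) + E P := by
    rw [← map_add, sub_add_cancel, map_smul, smul_eq_mul]
  have hEP : 0 ≤ E P := sos_E E hSq hPm
  have h5 : -((Fintype.card I : ℝ) * B) ≤ E (ρ • F - P) := by
    rw [← lam_eq r E (ρ • F - P) hFr']
    conv_rhs => rw [hF]
    rw [lam_sum]
    calc -((Fintype.card I : ℝ) * B) = ∑ _j : I, -B := by
          rw [Finset.sum_const, Finset.card_univ, nsmul_eq_mul]
          ring
      _ ≤ ∑ j, 1 * Lam r E (avg (u j) (v j)) := by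
          apply Finset.sum_le_sum
          intro j _
          rw [one_mul]
          exact hj j
  rw [hE2]
  linarith

end Pool.Agent.Lib.P325pg
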