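import Pool.Agent.Lib.P325P.EsSat
import Pool.Agent.Lib.P325av.Perm
import Pool.Agent.Lib.P325pg.GameS
import Pool.Agent.Lib.P325pg.RankS
import Pool.Agent.Lib.P325pg.ParaS

/-!
Linear programs of polynomial size together with the standard semidefinite constraints fail on
almost all relabelings of one game.
-/

open scoped BigOperators

namespace Pool.Agent.Lib.P325pg

open Pool.Agent.Lib.P325x (Game)
open Pool.Agent.Lib.P325h (IsLocalExpectation)
open Pool.Agent.Lib.P325P (es es_sat mean)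
open Pool.Agent.Lib.P325av (copyGame relabel perm_avg)

theorem copy_value {n t N k : ℕ} [NeZero k] (cp : Fin n × Fin t → Fin N)
    {ι : Type} [Fintype ι] (src dst : ι → Fin n) (b : ι → ZMod k) (δ : ℝ)
    (hval : (Game.mk src dst (fun e => Equiv.addRight (b e))).value ≤ δ)
    (z : Fin n ⊕ Fin n → Fin t) :
    (copyGame cp cp src dst b z).value ≤ δ := by
  have hsat : ∀ (f g : Fin N → ZMod k),
      (copyGame cp cp src dst b z).satFrac f g =
      (Game.mk src dst (fun e => Equiv.addRight (b e))).satFrac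
        (fun i => f (cp (i, z (Sum.inl i)))) (fun i => g (cp (i, z (Sum.inr i)))) :=
    fun f g => rfl
  refine le_trans ?_ hval
  unfold Game.value
  apply ciSup_le
  intro p
  rw [hsat]
  exact le_ciSup (f := fun q : (Fin n → ZMod k) × (Fin n → ZMod k) =>
    (Game.mk src dst (fun e => Equiv.addRight (b e))).satFrac q.1 q.2)
    (Set.finite_range _).bddAbove
    ((fun i => p.1 (cp (i, z (Sum.inl i)))), (fun i => p.2 (cp (i, z (Sum.inr i)))))

theorem lpS (s s1 δ : ℝ) (hs1 : s ≤ 1) (hss : s < s1) (k : ℕ) (hk : 0 < k) (A : ℕ)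
    (hbase : ∃ (n : ℕ) (ι : Type) (_ : Fintype ι) (src dst : ι → Fin n) (b : ι → ZMod k)
      (E : ((Fin n ⊕ Fin n → ZMod k) → ℝ) →ₗ[ℝ] ℝ), Nonempty ι ∧
      (Game.mk src dst (fun e => Equiv.addRight (b e))).value ≤ δ ∧
      IsLocalExpectation (16 * (A + 2)) E ∧
      (∀ (c : ℝ) (h : Fin n ⊕ Fin n → ZMod k → ℝ), 0 ≤ E (fun z => (c + ∑ p, h p (z p)) ^ 2)) ∧
      s1 ≤ E (fun z => (Game.mk src dst (fun e => Equiv.addRight (b e))).satFrac
        (fun u => z (Sum.inl u)) (fun w => z (Sum.inr w)))) :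
    ∃ N0 : ℕ, ∀ N ≥ N0, ∃ (ι : Type) (_ : Fintype ι) (src dst : ι → Fin N) (b : ι → ZMod k)
      (_ : NeZero k), Nonempty ι ∧
      (Game.mk src dst (fun e => Equiv.addRight (b e))).value ≤ δ ∧
      ∀ (C R : ℕ) (g : Fin R → (Fin N ⊕ Fin N → ZMod k) → ℝ), (∀ j x, 0 ≤ g j x) →
        ((R : ℝ) + 1) * (N : ℝ) ^ C ≤ (N : ℝ) ^ A →
        (Nat.card {σ : Equiv.Perm (Fin N) × Equiv.Perm (Fin N) //
          CertW g s (relabel (Game.mk src dst (fun e => Equiv.addRight (b e))) σ)} : ℝ) ≤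
          ((N : ℝ) ^ C)⁻¹ * (N.factorial : ℝ) ^ 2 := by
  have hkz : NeZero k := ⟨by omega⟩
  obtain ⟨n, ι, _, src, dst, b, E, hne, hval, hE, hSq, hsat⟩ := hbase
  have hn : 1 ≤ n := by
    obtain ⟨e⟩ := hne
    have := (src e).2
    omega
  have hη : 0 < s1 - s := by linarith
  obtain ⟨N0, hN0⟩ := paraS n k hn hk (s1 - s) hη A
  refine ⟨max N0 1, fun N hN => ?_⟩
  have hN1 : 1 ≤ N := le_trans (le_max_right _ _) hN
  have hN1' : (1 : ℝ) ≤ N := by exact_mod_cast hN1
  obtain ⟨K, τ, L, bb, hK1, hnK, hτ, hT, hL, hX1, hb0, hb, hfin⟩ :=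
    hN0 N (le_trans (le_max_left _ _) hN)
  have hKne : Nonempty (Fin K) := ⟨⟨0, hK1⟩⟩
  let cp : Fin n × Fin K → Fin N := fun p => Fin.castLE hnK (finProdFinEquiv p)
  have hcp : Function.Injective cp :=
    (Fin.castLE_injective hnK).comp finProdFinEquiv.injective
  let z0 : Fin n ⊕ Fin n → Fin K := fun _ => ⟨0, hK1⟩
  refine ⟨ι, inferInstance, fun e => cp (src e, z0 (Sum.inl (src e))),
    fun e => cp (dst e, z0 (Sum.inr (dst e))), b, hkz, hne,
    copy_value cp src dst b δ hval z0, ?_⟩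
  intro C R g hg hR
  refine perm_avg cp hcp src dst b z0 (fun I => CertW g s I) (((N : ℝ) ^ C)⁻¹) ?_
  intro σ
  classical
  obtain ⟨I, hI, u, v, Q, hcard, hu, hv, h0, hQ, hdec⟩ := gameS (fun p => σ.1 (cp p))
    (fun p => σ.2 (cp p)) (σ.1.injective.comp hcp) (σ.2.injective.comp hcp) s src dst b g hg
  set F : (Fin n ⊕ Fin n → ZMod k) → ℝ := fun z =>
    s - (Game.mk src dst (fun e => Equiv.addRight (b e))).satFrac
      (fun i => z (Sum.inl i)) (fun i => z (Sum.inr i)) with hF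
  have hF1 : ∀ y, F y ≤ 1 := by
    intro y
    have h1 : 0 ≤ (Game.mk src dst (fun e => Equiv.addRight (b e))).satFrac
        (fun i => y (Sum.inl i)) (fun i => y (Sum.inr i)) := by
      unfold Game.satFrac
      exact div_nonneg (Nat.cast_nonneg _) (Nat.cast_nonneg _)
    show s - _ ≤ 1
    linarith
  have hFr : ∀ T : Finset (Fin n ⊕ Fin n), 16 * (A + 2) < T.card → ∀ y, es T F y = 0 :=
    fun T hT' y => es_sat src dst b s T (by omega) y
  have hcardV : (Fintype.card (Fin n ⊕ Fin n) : ℝ) = 2 * (n : ℝ) := by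
    rw [Fintype.card_sum, Fintype.card_fin]
    push_cast
    ring
  have hcardK : ((Fintype.card (Fin K) : ℕ) : ℝ) = (K : ℝ) := by
    rw [Fintype.card_fin]
  have hcardO : ((Fintype.card (ZMod k) : ℕ) : ℝ) = (k : ℝ) := by
    rw [ZMod.card]
  set G : (Fin n ⊕ Fin n → Fin K) → Prop := fun z =>
    CertW g s (copyGame (fun p => σ.1 (cp p)) (fun p => σ.2 (cp p)) src dst b z) with hG
  have key := rankS (by omega) hE hSq F hF1 hFr u v hu hv G h0 Q hQ (fun z hz x => hdec z hz x)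
    τ L hτ
    (by intro j hj; rw [hcardK]; exact hT j hj)
    (by rw [hcardO]; exact hL)
    (by rw [hcardK, hcardO, hcardV]; exact hX1) bb hb0
    (by intro a ha; rw [hcardK, hcardO, hcardV]; exact hb a ha)
  rw [hcardO, hcardV, hcard] at key
  have hEF : E F ≤ s - s1 := by
    have h1 : F = (fun _ => s) - fun z =>
        (Game.mk src dst (fun e => Equiv.addRight (b e))).satFrac
          (fun i => z (Sum.inl i)) (fun i => z (Sum.inr i)) := rfl
    have h2 : (fun _ : Fin n ⊕ Fin n → ZMod k => s) = s • fun _ => (1 : ℝ) := by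
      ext z; simp
    rw [h1, map_sub, h2, map_smul, hE.one, smul_eq_mul, mul_one]
    linarith
  set B : ℝ := 2 * ((2 * (k : ℝ) * (2 * (n : ℝ) + 1)) ^ (16 * (A + 2)) * τ) + bb with hB
  have hB0 : 0 ≤ B := by positivity
  set ρ : ℝ := mean (fun z : Fin n ⊕ Fin n → Fin K => if G z then (1 : ℝ) else 0) with hρ
  have hρ0 : 0 ≤ ρ := by
    rw [hρ]
    unfold mean
    apply div_nonneg _ (Nat.cast_nonneg _)
    refine Finset.sum_nonneg fun z _ => ?_
    split <;> norm_num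
  have hcZ : (0 : ℝ) < (Fintype.card (Fin n ⊕ Fin n → Fin K) : ℝ) := by
    exact_mod_cast Fintype.card_pos_iff.2 ⟨z0⟩
  have hρc : (Nat.card {z : Fin n ⊕ Fin n → Fin K // G z} : ℝ) =
      ρ * (Fintype.card (Fin n ⊕ Fin n → Fin K) : ℝ) := by
    rw [hρ]
    unfold mean
    rw [div_mul_cancel₀ _ hcZ.ne', Finset.sum_boole, Nat.card_eq_fintype_card,
      Fintype.card_subtype]
  rw [hρc]
  refine mul_le_mul_of_nonneg_right ?_ hcZ.le
  have h1 : ρ * (s1 - s) ≤ ((R : ℝ) + 1) * B := by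
    have h2 : ρ * E F ≤ ρ * (s - s1) := mul_le_mul_of_nonneg_left hEF hρ0
    have h3 : (((R + 1 : ℕ) : ℝ)) = (R : ℝ) + 1 := by push_cast; ring
    rw [h3] at key
    linarith
  have hNC : (0 : ℝ) < (N : ℝ) ^ C := by positivity
  rw [← one_div, le_div_iff₀ hNC]
  have h2 : (ρ * (N : ℝ) ^ C) * (s1 - s) ≤ 1 * (s1 - s) := by
    calc (ρ * (N : ℝ) ^ C) * (s1 - s) = (ρ * (s1 - s)) * (N : ℝ) ^ C := by ring
      _ ≤ (((R : ℝ) + 1) * B) * (N : ℝ) ^ C := mul_le_mul_of_nonneg_right h1 hNC.le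
      _ = (((R : ℝ) + 1) * (N : ℝ) ^ C) * B := by ring
      _ ≤ (N : ℝ) ^ A * B := mul_le_mul_of_nonneg_right hR hB0
      _ ≤ s1 - s := hfin
      _ = 1 * (s1 - s) := (one_mul _).symm
  exact le_of_mul_le_mul_right h2 hη

end Pool.Agent.Lib.P325pg
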