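import Pool.Agent.Lib.P325pg.ConvS
import Pool.Agent.Lib.P325pg.LPS

/-!
Convex programs of polynomial size on top of the standard semidefinite relaxation, from
Sherali-Adams solutions with positive semidefinite second moments.
-/

open scoped BigOperators

namespace Pool.Agent.Lib.P325pg

open Pool.Agent.Lib.P325x (Game)
open Pool.Agent.Lib.P325h (IsLocalExpectation)
open Pool.Agent.Lib.P325av (Certifies relabel)

/-- Sherali-Adams solutions of every degree with positive semidefinite second moments and objective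
at least `1 - ε` for games of value at most `δ` with a number of labels that depends on `ε` and
`δ` only. -/
def BaseS : Prop := ∀ ε δ : ℝ, 0 < ε → 0 < δ → ∃ k : ℕ, 0 < k ∧ ∀ r : ℕ,
    ∃ (n : ℕ) (ι : Type) (_ : Fintype ι) (src dst : ι → Fin n) (b : ι → ZMod k)
      (E : ((Fin n ⊕ Fin n → ZMod k) → ℝ) →ₗ[ℝ] ℝ), Nonempty ι ∧
      (Game.mk src dst (fun e => Equiv.addRight (b e))).value ≤ δ ∧
      IsLocalExpectation r E ∧
      (∀ (c : ℝ) (h : Fin n ⊕ Fin n → ZMod k → ℝ), 0 ≤ E (fun z => (c + ∑ p, h p (z p)) ^ 2)) ∧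
      1 - ε ≤ E (fun z => (Game.mk src dst (fun e => Equiv.addRight (b e))).satFrac
        (fun u => z (Sum.inl u)) (fun w => z (Sum.inr w)))

theorem mainS (hB : BaseS) (ε δ : ℝ) (hε : 0 < ε) (hδ : 0 < δ) : ∃ k : ℕ, 0 < k ∧ ∀ C : ℕ,
    ∃ N0 : ℕ, ∀ N ≥ N0, ∃ (ι : Type) (_ : Fintype ι) (src dst : ι → Fin N) (b : ι → ZMod k),
      Nonempty ι ∧
      (Game.mk src dst (fun e => Equiv.addRight (b e))).value ≤ δ ∧
      ∀ (Y : Type) [AddCommGroup Y] [Module ℝ Y] (R : ℕ)
        (A : Fin R → Y →ₗ[ℝ] (Fin C → ℝ)) (K : Fin R → Set (Fin C → ℝ))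
        (pt : (Fin N ⊕ Fin N → ZMod k) → Y),
        (R : ℝ) ≤ (N : ℝ) ^ C → (∀ j, Convex ℝ (K j)) → (∀ z j, A j (pt z) ∈ K j) →
        (Nat.card {g : Equiv.Perm (Fin N) × Equiv.Perm (Fin N) //
          Certifies ({y | ∀ j, A j y ∈ K j} ∩ StandardSDP pt) pt (1 - ε)
            (relabel (Game.mk src dst (fun e => Equiv.addRight (b e))) g)} : ℝ) ≤
          (N.factorial : ℝ) ^ 2 / (N : ℝ) ^ C := by
  -- the intermediate values
  set s : ℝ := 1 - min ε (1 / 2) with hs
  have hs2 : 1 / 2 ≤ s := by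
    have := min_le_right ε (1 / 2)
    linarith
  have hs1 : s < 1 := by
    have : 0 < min ε (1 / 2) := lt_min hε (by norm_num)
    linarith
  have hsε : 1 - ε ≤ s := by
    have := min_le_left ε (1 / 2)
    linarith
  have hs0 : 0 < s := by linarith
  have hr0 : 0 < Real.sqrt s := Real.sqrt_pos.2 hs0
  have hr1 : Real.sqrt s < 1 := by
    rw [Real.sqrt_lt' one_pos]
    linarith
  have hq1 : Real.sqrt (Real.sqrt s) < 1 := by
    rw [Real.sqrt_lt' one_pos]
    linarith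
  have hqr : Real.sqrt s < Real.sqrt (Real.sqrt s) := by
    rw [Real.lt_sqrt hr0.le]
    nlinarith
  obtain ⟨k, hk, hbase⟩ := hB (1 - Real.sqrt (Real.sqrt s)) δ (by linarith) hδ
  refine ⟨k, hk, fun C => ?_⟩
  obtain ⟨N1, hN1⟩ := lpS (Real.sqrt s) (Real.sqrt (Real.sqrt s)) δ hr1.le hqr k hk
    (C ^ 2 + 3 * C + 1) (by
      obtain ⟨n, ι, i1, src, dst, b, E, h1, h2, h3, h4, h5⟩ := hbase (16 * (C ^ 2 + 3 * C + 1 + 2))
      refine ⟨n, ι, i1, src, dst, b, E, h1, h2, h3, h4, ?_⟩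
      linarith)
  have hθ0 : 0 < 1 / Real.sqrt s - 1 := by
    have : 1 < 1 / Real.sqrt s := by rw [lt_div_iff₀ hr0]; linarith
    linarith
  obtain ⟨N2, hN2⟩ := paraC (1 / Real.sqrt s - 1) hθ0 C
  refine ⟨max (max N1 N2) 1, fun N hN => ?_⟩
  have hNN1 : N1 ≤ N := le_trans (le_trans (le_max_left _ _) (le_max_left _ _)) hN
  have hNN2 : N2 ≤ N := le_trans (le_trans (le_max_right _ _) (le_max_left _ _)) hN
  have hN0 : 1 ≤ N := le_trans (le_max_right _ _) hN
  have hN0' : (1 : ℝ) ≤ N := by exact_mod_cast hN0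
  obtain ⟨ι, hι, src, dst, b, hkz, hne, hval, hall⟩ := hN1 N hNN1
  refine ⟨ι, hι, src, dst, b, hne, hval, fun Y _ _ R A K pt hR hK hpt => ?_⟩
  obtain ⟨Rl, g, hRl, hg, himp⟩ := w_of_convex s hs0 hs1 R C A K pt hK hpt
  have hRl' : ((Rl : ℝ) + 1) * (N : ℝ) ^ C ≤ (N : ℝ) ^ (C ^ 2 + 3 * C + 1) := by
    refine le_trans ?_ (hN2 N hNN2 R hR)
    apply mul_le_mul_of_nonneg_right _ (by positivity)
    linarith
  have h1 := hall C Rl g hg hRl'
  have h2 : (Nat.card {g : Equiv.Perm (Fin N) × Equiv.Perm (Fin N) //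
          Certifies ({y | ∀ j, A j y ∈ K j} ∩ StandardSDP pt) pt (1 - ε)
            (relabel (Game.mk src dst (fun e => Equiv.addRight (b e))) g)} : ℝ) ≤
      (Nat.card {σ : Equiv.Perm (Fin N) × Equiv.Perm (Fin N) //
          CertW g (Real.sqrt s)
            (relabel (Game.mk src dst (fun e => Equiv.addRight (b e))) σ)} : ℝ) := by
    have hc : ∀ (I : Game (Fin N) (Fin N) (ZMod k) ι),
        Certifies ({y | ∀ j, A j y ∈ K j} ∩ StandardSDP pt) pt (1 - ε) I →
        CertW g (Real.sqrt s) I := by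
      rintro I ⟨w, w0, hw1, hw2⟩
      exact himp ι I ⟨w, w0, hw1, fun y hy => (hw2 y hy).trans hsε⟩
    have h3 := Nat.card_le_card_of_injective
      (fun x : {g : Equiv.Perm (Fin N) × Equiv.Perm (Fin N) //
          Certifies ({y | ∀ j, A j y ∈ K j} ∩ StandardSDP pt) pt (1 - ε)
            (relabel (Game.mk src dst (fun e => Equiv.addRight (b e))) g)} =>
        (⟨x.1, hc _ x.2⟩ : {σ : Equiv.Perm (Fin N) × Equiv.Perm (Fin N) //
          CertW g (Real.sqrt s)
            (relabel (Game.mk src dst (fun e => Equiv.addRight (b e))) σ)}))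
      (fun x y h => Subtype.ext (by
        have h4 := congrArg Subtype.val h
        exact h4))
    exact_mod_cast h3
  refine h2.trans (h1.trans (le_of_eq ?_))
  rw [div_eq_inv_mul]

end Pool.Agent.Lib.P325pg
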