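import Pool.Agent.Lib.P325P.Rank

/-!
The estimate of one product term (`P325P.part`, `P325P.term`) with a parameter `b` for the tail.
-/

open scoped BigOperators

namespace Pool.Agent.Lib.P325pg

open Pool.Agent.Lib.P325h (IsLocalExpectation)
open Pool.Agent.Lib.P325P Pool.Agent.Lib.P325P.PartBAux

variable {V K Ω : Type} [Fintype V] [DecidableEq V] [Fintype K] [DecidableEq K] [Fintype Ω]
  [Nonempty Ω] [Nonempty K]

theorem claim_largeS {r : ℕ} {E : ((V → Ω) → ℝ) →ₗ[ℝ] ℝ} (hE : IsLocalExpectation r E)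
    (u : (V → K) → ℝ) (hu : ∀ z, 0 ≤ u z) (J : Finset V) (α : V → K)
    (hs : ∀ z, u z ≠ 0 → ∀ i ∈ J, z i = α i)
    (hd : ∀ S : Finset V, Disjoint S J → ∀ z,
      massAt u S z ≤ mean u / Real.sqrt (Fintype.card K) ^ S.card)
    (hJ : 2 * J.card ≤ r) (v : (V × K → Ω) → ℝ) (hv : ∀ x, 0 ≤ v x) (hv1 : ∀ x, v x ≤ 1)
    (τ L : ℝ) (hτ : 0 < τ)
    (hL : (J.card : ℝ) * Real.log (Fintype.card Ω) + Real.log (1 / τ) ≤ L)
    (γ : ℝ) (hγdef : γ = Real.exp 1 * (Fintype.card Ω : ℝ) * Real.sqrt (L + 1) /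
        Real.sqrt (Real.sqrt (Fintype.card K)))
    (hX1 : (Fintype.card V : ℝ) * γ ≤ 1 / 2) (b : ℝ)
    (hb : ∀ a : ℕ, 2 * a ≤ r → (Fintype.card Ω : ℝ) ^ a *
      (4 ^ a * ((Fintype.card V : ℝ) * γ) ^ (r - a)) ≤ b)
    (β : V → Ω) (hm : τ ≤ mean (res J α β v)) :
    -(mean u * mean (res J α β v) * b) ≤
      (Fintype.card Ω : ℝ) ^ J.card * Lam r E (fun y => ind J β y * avg u v y) := by
  have hU : 0 ≤ mean u := mean_nonneg hu
  have hq1 : (1 : ℝ) ≤ (Fintype.card Ω : ℝ) := card_pos'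
  have hγ0 : 0 ≤ γ := by rw [hγdef]; positivity
  have hX0 : 0 ≤ (Fintype.card V : ℝ) * γ := by positivity
  set m := mean (res J α β v) with hmdef
  have hm0 : 0 < m := lt_of_lt_of_le hτ hm
  have hc : 0 ≤ mean u * m := mul_nonneg hU hm0.le
  have hJr : J.card ≤ r := by omega
  have hEi : 0 ≤ E (ind J β) := hE.nonneg _ J hJr (ind_dep J β) (ind_nonneg J β)
  -- the logarithm
  have hlog : Real.log ((Fintype.card Ω : ℝ) ^ J.card / m) ≤ L := by
    rw [Real.log_div (by positivity) hm0.ne', Real.log_pow]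
    rw [one_div, Real.log_inv] at hL
    have := Real.log_le_log hτ hm
    linarith
  -- the components
  let G : Finset V → (V → Ω) → ℝ := fun S y => mean (fun z => u z * es S (lift z (res J α β v)) y)
  have hG : ∀ S : Finset V, Disjoint S J → ∀ y, |G S y| ≤ mean u * m * γ ^ S.card := by
    intro S hS y
    rw [hγdef]
    exact gbd u hu (res J α β v) (res_nonneg J α β hv) (mean u) ((Fintype.card Ω : ℝ) ^ J.card) m L
      rfl (res_le J α β hv hv1) rfl hm0 hlog S (hd S hS) y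
  have hdec : (fun y => ind J β y * avg u v y) = fun y =>
      ∑ S ∈ (Finset.univ \ J).powerset, (1 : ℝ) * (ind J β y * G S y) := by
    funext y
    rw [part_id u J α hs v β y, Finset.mul_sum]
    refine Finset.sum_congr rfl fun S _ => ?_
    rw [one_mul]
  have hlam : Lam r E (fun y => ind J β y * avg u v y) =
      ∑ S ∈ (Finset.univ \ J).powerset, (1 : ℝ) * Lam r E (fun y => ind J β y * G S y) := by
    rw [hdec]
    exact lam_sum r E _ (fun _ => 1) (fun S y => ind J β y * G S y)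
  -- lower bound
  have hlow : ∀ S ∈ (Finset.univ \ J).powerset,
      mean u * m * E (ind J β) * (if S = ∅ then 1 else 0) - mean u * m * E (ind J β) *
      (if 0 < S.card then γ ^ S.card else 0) - 4 ^ J.card * (mean u * m) *
      (if r - J.card < S.card then γ ^ S.card else 0) ≤
      (1 : ℝ) * Lam r E (fun y => ind J β y * G S y) := by
    intro S hS
    have hdis : Disjoint S J := by
      rw [Finset.mem_powerset] at hS
      exact Finset.disjoint_of_subset_left hS Finset.sdiff_disjoint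
    rw [one_mul]
    refine comp_ge hE hJr β (G S) (g_pure u _ S) hdis.symm hc hγ0 (hG S hdis) ?_
    intro h0 y
    subst h0
    exact g_empty u _ y
  have hsum := Finset.sum_le_sum hlow
  rw [← hlam, Finset.sum_sub_distrib, Finset.sum_sub_distrib, ← Finset.mul_sum, ← Finset.mul_sum,
    ← Finset.mul_sum] at hsum
  have hs1 : ∑ S ∈ (Finset.univ \ J).powerset, (if S = ∅ then (1 : ℝ) else 0) = 1 := by
    rw [Finset.sum_ite_eq' (Finset.univ \ J).powerset ∅ (fun _ => (1 : ℝ)),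
      if_pos (Finset.empty_mem_powerset _)]
  have hs2 : ∀ d0 : ℕ, ∑ S ∈ (Finset.univ \ J).powerset, (if d0 < S.card then γ ^ S.card else 0) ≤
      ((Fintype.card V : ℝ) * γ) ^ d0 := by
    intro d0
    refine le_trans ?_ (geo γ hγ0 hX1 d0)
    rw [Finset.sum_filter]
    apply Finset.sum_le_sum_of_subset_of_nonneg (Finset.subset_univ _)
    intro S _ _
    split_ifs
    · exact pow_nonneg hγ0 _
    · exact le_rfl
  rw [hs1, mul_one] at hsum
  have h1 := mul_le_mul_of_nonneg_left (hs2 0) (mul_nonneg hc hEi)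
  rw [pow_zero, mul_one] at h1
  have h2 := mul_le_mul_of_nonneg_left (hs2 (r - J.card))
    (mul_nonneg (pow_nonneg (by norm_num : (0 : ℝ) ≤ 4) J.card) hc)
  have h3 : -((4 : ℝ) ^ J.card * (mean u * m) * ((Fintype.card V : ℝ) * γ) ^ (r - J.card)) ≤
      Lam r E (fun y => ind J β y * avg u v y) := by linarith
  have h4 := mul_le_mul_of_nonneg_left h3
    (pow_nonneg (by linarith : (0 : ℝ) ≤ (Fintype.card Ω : ℝ)) J.card)
  refine le_trans ?_ h4
  have h5 := hb J.card hJ
  have h6 := mul_le_mul_of_nonneg_left h5 hc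
  have h7 : (Fintype.card Ω : ℝ) ^ J.card *
      -((4 : ℝ) ^ J.card * (mean u * m) * ((Fintype.card V : ℝ) * γ) ^ (r - J.card)) =
      -(mean u * m * ((Fintype.card Ω : ℝ) ^ J.card *
        (4 ^ J.card * ((Fintype.card V : ℝ) * γ) ^ (r - J.card)))) := by ring
  rw [h7]
  exact neg_le_neg h6

theorem partS {r : ℕ} {E : ((V → Ω) → ℝ) →ₗ[ℝ] ℝ} (hE : IsLocalExpectation r E)
    (u : (V → K) → ℝ) (hu : ∀ z, 0 ≤ u z) (J : Finset V) (α : V → K)
    (hs : ∀ z, u z ≠ 0 → ∀ i ∈ J, z i = α i)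
    (hd : ∀ S : Finset V, Disjoint S J → ∀ z,
      massAt u S z ≤ mean u / Real.sqrt (Fintype.card K) ^ S.card)
    (hJ : 2 * J.card ≤ r) (v : (V × K → Ω) → ℝ) (hv : ∀ x, 0 ≤ v x) (hv1 : ∀ x, v x ≤ 1)
    (τ L : ℝ) (hτ : 0 < τ)
    (hL : (J.card : ℝ) * Real.log (Fintype.card Ω) + Real.log (1 / τ) ≤ L)
    (hX1 : (Fintype.card V : ℝ) * (Real.exp 1 * (Fintype.card Ω : ℝ) * Real.sqrt (L + 1) /
      Real.sqrt (Real.sqrt (Fintype.card K))) ≤ 1 / 2) (b : ℝ) (hb0 : 0 ≤ b)
    (hb : ∀ a : ℕ, 2 * a ≤ r → (Fintype.card Ω : ℝ) ^ a *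
      (4 ^ a * ((Fintype.card V : ℝ) * (Real.exp 1 * (Fintype.card Ω : ℝ) * Real.sqrt (L + 1) /
        Real.sqrt (Real.sqrt (Fintype.card K)))) ^ (r - a)) ≤ b) :
    -(mean u * ((2 * (Fintype.card Ω : ℝ) * ((Fintype.card V : ℝ) + 1)) ^ r * τ +
      b)) ≤ Lam r E (avg u v) := by
  have hU : 0 ≤ mean u := mean_nonneg hu
  have hB : (0 : ℝ) ≤ (2 * (Fintype.card Ω : ℝ) * ((Fintype.card V : ℝ) + 1)) ^ r := by positivity
  set B := (2 * (Fintype.card Ω : ℝ) * ((Fintype.card V : ℝ) + 1)) ^ r with hBdef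
  have hclaim : ∀ β : V → Ω,
      -(mean u * b) * mean (res J α β v) + -(B * mean u * τ) ≤
      (Fintype.card Ω : ℝ) ^ J.card * Lam r E (fun y => ind J β y * avg u v y) := by
    intro β
    have hm0 : 0 ≤ mean (res J α β v) := mean_nonneg (res_nonneg J α β hv)
    by_cases hm : mean (res J α β v) < τ
    · have h1 := claim_small hE u hu J α hs v hv τ β hm
      have h2 : 0 ≤ mean u * b * mean (res J α β v) := by positivity
      rw [← hBdef] at h1
      linarith
    · have h1 := claim_largeS hE u hu J α hs hd hJ v hv hv1 τ L hτ hL _ rfl hX1 b hb β (not_lt.1 hm)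
      have h2 : 0 ≤ B * mean u * τ := by positivity
      have h3 : mean u * mean (res J α β v) * b =
        mean u * b * mean (res J α β v) := by ring
      rw [h3] at h1
      linarith
  rw [lam_avg r E u J v]
  refine le_trans ?_ (mean_mono hclaim)
  rw [mean_add, mean_const, mean_mul_left, mean_res]
  have hmv : mean v ≤ 1 := mean_le hv1
  have h1 : mean u * b * mean v ≤ mean u * b * 1 :=
    mul_le_mul_of_nonneg_left hmv (mul_nonneg hU hb0)
  have h2 : mean u * (B * τ + b) =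
    mean u * b * 1 + B * mean u * τ := by ring
  rw [h2]
  linarith

theorem termS {r : ℕ} {E : ((V → Ω) → ℝ) →ₗ[ℝ] ℝ} (hE : IsLocalExpectation r E)
    (u : (V → K) → ℝ) (hu : ∀ z, 0 ≤ u z) (hu1 : ∀ z, u z ≤ 1) (v : (V × K → Ω) → ℝ)
    (hv : ∀ x, 0 ≤ v x) (hv1 : ∀ x, v x ≤ 1) (τ L : ℝ) (hτ : 0 < τ)
    (hT : ∀ j : ℕ, r < 2 * j → 1 < τ * Real.sqrt (Fintype.card K) ^ j)
    (hL : (r : ℝ) * Real.log (Fintype.card Ω) + Real.log (1 / τ) ≤ L)
    (hX1 : (Fintype.card V : ℝ) * (Real.exp 1 * (Fintype.card Ω : ℝ) * Real.sqrt (L + 1) /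
      Real.sqrt (Real.sqrt (Fintype.card K))) ≤ 1 / 2) (b : ℝ) (hb0 : 0 ≤ b)
    (hb : ∀ a : ℕ, 2 * a ≤ r → (Fintype.card Ω : ℝ) ^ a *
      (4 ^ a * ((Fintype.card V : ℝ) * (Real.exp 1 * (Fintype.card Ω : ℝ) * Real.sqrt (L + 1) /
        Real.sqrt (Real.sqrt (Fintype.card K)))) ^ (r - a)) ≤ b) :
    -(2 * ((2 * (Fintype.card Ω : ℝ) * ((Fintype.card V : ℝ) + 1)) ^ r * τ) +
      b) ≤ Lam r E (avg u v) := by
  classical
  obtain ⟨n, up, J, α, u0, hdec, hu0, hmu0, hparts⟩ := dense τ hτ u hu hu1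
  set B : ℝ := (2 * (Fintype.card Ω : ℝ) * ((Fintype.card V : ℝ) + 1)) ^ r with hB
  have hB0 : 0 ≤ B := by positivity
  set e : ℝ := b with he
  have he0 : 0 ≤ e := hb0
  have hq : (0 : ℝ) ≤ Real.log (Fintype.card Ω) := Real.log_natCast_nonneg _
  -- the decomposition of the average
  have hlin : avg u v = fun y => ∑ j : Option (Fin n), (1 : ℝ) *
      (Option.elim j (avg u0 v) (fun p => avg (up p) v)) y := by
    funext y
    rw [Fintype.sum_option]
    simp only [Option.elim, one_mul]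
    have h1 : ∀ z, u z * lift z v y = u0 z * lift z v y + ∑ p, up p z * lift z v y := by
      intro z
      rw [hdec z, add_mul, Finset.sum_mul]
    unfold avg
    rw [mean_congr h1, mean_add, mean_sum]
  have hsum : Lam r E (avg u v) = Lam r E (avg u0 v) + ∑ p, Lam r E (avg (up p) v) := by
    rw [hlin, lam_sum, Fintype.sum_option]
    simp only [Option.elim, one_mul]
  have hv0m : 0 ≤ mean v := mean_nonneg hv
  have hv1m : mean v ≤ 1 := mean_le hv1
  have hu0m : 0 ≤ mean u0 := mean_nonneg hu0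
  have hbase : -(B * τ) ≤ Lam r E (avg u0 v) := by
    have h1 := lam_ge hE (f := avg u0 v) (fun y => mean_nonneg fun z =>
      mul_nonneg (hu0 z) (mean_nonneg fun x => hv _))
    rw [mean_avg] at h1
    refine le_trans ?_ h1
    have h2 : mean u0 * mean v ≤ τ * 1 := mul_le_mul hmu0 hv1m hv0m hτ.le
    rw [mul_one] at h2
    have h3 := mul_le_mul_of_nonneg_left h2 hB0
    linarith
  have hpart : ∀ p, -(mean (up p) * (B * τ + e)) ≤ Lam r E (avg (up p) v) := by
    intro p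
    obtain ⟨h1, h2, h3, h4⟩ := hparts p
    have hJ : 2 * (J p).card ≤ r := by
      by_contra hcon
      push Not at hcon
      exact absurd (hT _ hcon) (not_lt.2 h4)
    refine partS hE (up p) h1 (J p) (α p) h2 h3 hJ v hv hv1 τ L hτ ?_ hX1 b hb0 hb
    refine le_trans ?_ hL
    have h5 : ((J p).card : ℝ) ≤ (r : ℝ) := by
      have : (J p).card ≤ r := by omega
      exact_mod_cast this
    have h6 := mul_le_mul_of_nonneg_right h5 hq
    linarith
  have hmass : ∑ p, mean (up p) ≤ 1 := by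
    have h1 : mean u = mean u0 + ∑ p, mean (up p) := by
      rw [mean_congr hdec, mean_add, mean_sum]
    have h2 : mean u ≤ 1 := mean_le hu1
    linarith
  have hBe : 0 ≤ B * τ + e := by positivity
  have htot : -(B * τ + e) ≤ ∑ p, Lam r E (avg (up p) v) := by
    have h1 : ∑ p, -(mean (up p) * (B * τ + e)) ≤ ∑ p, Lam r E (avg (up p) v) :=
      Finset.sum_le_sum fun p _ => hpart p
    rw [Finset.sum_neg_distrib, ← Finset.sum_mul] at h1
    have h2 := mul_le_mul_of_nonneg_right hmass hBe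
    linarith
  rw [hsum]
  linarith

end Pool.Agent.Lib.P325pg
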